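import Pool.Agent.K9h44.PL.Main
/-!
# The Pisot substitution conjecture for substitutions with a frequent letter

Letters are `0, ..., m` with `m ≥ 1`. `inc σ` is the incidence matrix of `σ`,
`compList [τ₁, ..., τ_k] = τ₁ ∘ ... ∘ τ_k`, `PisotMat M` says that `M` is unimodular, irreducible and
Pisot as in the problem file, `SemiConjToral σ` says that the subshift of `σ` is semi-conjugate to a
minimal toral translation as in the problem file (`Pool/Agent/H812R2/PI/Defs.lean`, `JDefs.lean`).
`Coinc σ` is the geometric coincidence condition (`Pool/Agent/R889/PZ/NMain.lean`).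

`Sparse w τ` (in `Pool/Agent/K9h44/PL/Sparse.lean`), for weights `w j ∈ ℕ`, means:
* the letters different from `0` are adjacent in `τ 0`: `τ 0 = 0^p v 0^q` with no `0` in `v`
  (`p, q ≥ 0` arbitrary);
* `τ 0` has at least `4 + ∑_{i in v} w i` zeros;
* for `j ≥ 1` the letters of `τ j` different from `0` are larger than `j`, in any order, and the
  number of zeros in `τ j` plus the total weight of its other letters is at most `w j`.

All compositions of any number `≥ 1` of such substitutions (same weights) with determinants `± 1`
are unimodular irreducible Pisot substitutions, satisfy the geometric coincidence condition and are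
semi-conjugate to toral translations. The only condition on the order of the letters is the
adjacency in `τ 0`, which is no condition if `τ 0` has only one letter different from `0`.

Example (`Pool.Agent.K9h44.PL.companion`): all letter orders, and all compositions, of the
substitutions `0 ↦ 0^{a₀} 1, 1 ↦ 0^{a₁} 2, ..., m-1 ↦ 0^{a_{m-1}} m, m ↦ 0` with
`a₀ ≥ a₁ + ... + a_{m-1} + 1 + 4`.

The proof uses expansions of minimal weight (sum of the absolute values of the digits) of the
vectors of `ℤ^{m+1}` along the sequence of matrices.
-/
set_option autoImplicit false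
namespace Pool.Agent.Results.MP_e732b0_an.FrequentLetter
open Pool.Agent.H812R2.PI Pool.Agent.R889.PZ Pool.Agent.K9h44.PL

theorem result (m : ℕ) (hm : 1 ≤ m) (w : Fin (m+1) → ℕ)
    (l : List (Fin (m+1) → List (Fin (m+1)))) (hne : l ≠ [])
    (hl : ∀ τ ∈ l, Sparse w τ ∧ ((inc τ).det = 1 ∨ (inc τ).det = -1)) :
    PisotMat (inc (compList l)) ∧ Coinc (compList l) ∧ SemiConjToral (compList l) :=
  sparse_main hm w l hne hl

end Pool.Agent.Results.MP_e732b0_an.FrequentLetter
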