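import Pool.Agent.K9h44.PL.HCor
/-!
# The Pisot substitution conjecture for substitutions with a hub

Letters are `0, ..., m` with `m ≥ 1`. `inc σ` is the incidence matrix of `σ`,
`compList [τ₁, ..., τ_k] = τ₁ ∘ ... ∘ τ_k`, `PisotMat M` says that `M` is unimodular, irreducible and
Pisot as in the problem file, `SemiConjToral σ` says that the subshift of `σ` is semi-conjugate to a
minimal toral translation as in the problem file (`Pool/Agent/H812R2/PI/Defs.lean`, `JDefs.lean`).
`Coinc σ` is the geometric coincidence condition (`Pool/Agent/R889/PZ/NMain.lean`).

`Hub w z τ` (in `Pool/Agent/K9h44/PL/Hub.lean`), for loads `w j > 0` and `z j ≥ 0`, is a condition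
on the incidence matrix of `τ` only; write `a` for the number of zeros in `τ 0`:
* `a ≥ 5`, and for `j ≥ 1` the letters of `τ j` different from `0` are larger than `j`;
* `|τ j|₀ + a ∑_{i ≥ 1} w i |τ j|_i ≤ a w j` for `j ≥ 1` and `∑_{i ≥ 1} w i |τ 0|_i ≤ 1/2`;
* `|τ 0|_i + ∑_{j ≥ 1} z j |τ j|_i ≤ z i` for `i ≥ 1` and `2 ∑_{j ≥ 1} z j |τ j|₀ + 2 < a`.

All compositions of any number `≥ 1` of such substitutions (same loads) with determinants `± 1`
are unimodular irreducible Pisot substitutions, satisfy the geometric coincidence condition and are
semi-conjugate to toral translations. There is no condition on the order of the letters.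

The case of one matrix, and of common bounds (`Pool.Agent.K9h44.PL.hub_common`): let all cycles of
the graph of the matrix pass through `0`, let `R` be the number of returns from `0` to `0` which
are not loops at `0` (so the characteristic polynomial is `x^{m+1} - a x^m - r₁ x^{m-1} - ... - r_m`
with `∑ r_i = R`); then `a ≥ 2 R + 3` suffices, for all orders of the letters.

The proof: every vector of `ℤ^{m+1}` has, after multiplication by a power of the matrix, an
expansion with few nonzero digits (minimal cost), whose digits are then balanced (absolute value at
most `a/2 + 1`); the expansion is realized by differences of positions of `0` from the top to the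
bottom, the letters different from `0` met on the way are pushed down; in the low places, windows
with few such letters are chosen and a load decreases until nothing is left.
-/
set_option autoImplicit false
namespace Pool.Agent.Results.MP_e732b0_an.HubLetter
open Pool.Agent.H812R2.PI Pool.Agent.R889.PZ Pool.Agent.K9h44.PL

theorem result (m : ℕ) (hm : 1 ≤ m) (w z : Fin (m+1) → ℝ) (hw : ∀ j, 0 < w j) (hz : ∀ j, 0 ≤ z j)
    (l : List (Fin (m+1) → List (Fin (m+1)))) (hne : l ≠ [])
    (hl : ∀ τ ∈ l, Hub w z τ ∧ ((inc τ).det = 1 ∨ (inc τ).det = -1)) :
    PisotMat (inc (compList l)) ∧ Coinc (compList l) ∧ SemiConjToral (compList l) :=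
  hub_main hm hw hz l hne hl

end Pool.Agent.Results.MP_e732b0_an.HubLetter
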