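import Pool.Agent.K9h94.SB.Final

/-!
# Smoothed analysis of the Pisot substitution conjecture: arbitrary sparse noise

Let `M i` be finitely many nonnegative unimodular irreducible Pisot matrices of the same size, with
leading eigenvalues `lam i` and right eigenvectors `u i` of sum one. Let `σ` be ANY substitution with
incidence matrix `M i ^ n` all of whose prefixes (of images of letters) have discrepancy at most `B`.
For large `B` all compositions of `n` substitutions with incidence matrix `M i` are of this kind, for
instance the power `τ ^ n` of a substitution `τ` which might be a counterexample to the conjecture.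

We disturb `σ` locally and at random. The images of the letters are cut into blocks of lengths in
`[K₀, L]` in an arbitrary way (`W a` is the list of the blocks of `σ a`), and some of the blocks are
replaced by random rearrangements of their letters. The noise may be weak, it need not be independent,
it may be concentrated on an arbitrary small part `N` of the blocks, and other blocks may be controlled
by an adversary. We only assume (`IsNoiseOn`), if the words which replace all the OTHER blocks are
given, that
* a block in `N` is replaced by `w` with conditional probability at least `ε`, for all rearrangements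
  `w` of its letters;
* a block outside of a set `Z` of at most `c |N|` blocks is unchanged with conditional probability at
  least `κ`.

Theorem. The probability that the random substitution `S` does not satisfy the Pisot substitution
conjecture is at most `C exp (- c κ ε |N|)`. More precisely, up to this probability `S` absorbs: for all
`ρ` with determinant `± 1` and images of length at most `T`, all compositions of `ρ ∘ S` on both sides
with arbitrary (non-commuting) tube blocks are unimodular, irreducible and Pisot, satisfy the geometric
coincidence condition, and are semi-conjugate to toral translations. The constants do not depend on `n`,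
on `σ`, on the blocks, on `N`, on `Z` and on the noise.

Consequence. There is a number `A`, which does not depend on `n` and `σ`, such that EVERY set `N` of at
least `A` blocks suffices: the images of `σ`, of lengths about `(lam i) ^ n`, can be changed inside the
blocks in `N` only, such that the new substitution absorbs. For instance all changes can be made in `A`
prescribed blocks of the image of one letter, far away from all other letters, and if every block in
`N` is independently shuffled with probability `1 / 2` (`lazyOn`), then the probability of failure is at
most `C exp (- c' |N|)`.

In the starting results, `BoundedLetterChanges` shows that SOME suitable bounded change of `σ` exists (the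
places are chosen in the proof); `GenericBoundedDiscrepancy`, `GenericAbsorption` and
`AlmostAllSubstitutions` treat uniformly random elements of the whole set of the substitutions with
incidence matrix `M ^ n` (and bounded discrepancy), which says nothing about the neighbourhood of a
given `σ`.

Proof. (1) One-sided surgery: if two paths run in the tube next to each other, then one of them can be
rearranged inside a window of bounded length such that it has an edge in common with the other one,
which is not changed (in the library `Pool/Agent/H812R2/PI` both paths are changed). (2) If `N` is an
arbitrary set of blocks, then we cannot hit all overlaps of edges: an overlap need not contain the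
letters whose images contain the blocks in `N`. But for one letter `b` the image of `b` contains at
least `|N| / (m + 1)` of them. For every word `w` of bounded length which covers an edge of type `b` at
bounded distance, the images of `b` and of `w` under `σ` run next to each other, and give a number of
disjoint pairs of blocks with aligned windows, the first one in `N`, which is proportional to `|N|`
(independent sets in graphs of bounded degree); it is unlikely that for none of them the partner is
unchanged and the block in `N` is replaced by the right rearrangement. So the edge of type `b` has
coincidences with all its covers under `S` (`Cov`). (3) Two steps: under an arbitrary further tube block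
`Q`, the images of two overlapping edges have a long overlap (`Gap`) and contain `b` (`Freq`), so that
`S ∘ Q` has coincidences on all overlapping edges at bounded distance (`hb_two`). (4) A composition `Π`
which contains `ρ ∘ S` is not covered by this if `S` stands at its end, but its square `Π ∘ Π` is; the
theorem on compositions of `Pool/Agent/R889/PZ` applies to the square, and the statements for `Π` follow.
-/

set_option autoImplicit false

namespace Pool.Agent.Results.MP_e732b0_an.SmoothedAnalysis

open Pool.Agent.H812R2.PI Pool.Agent.K9h94.SA Pool.Agent.K9h94.SB
open scoped BigOperators

theorem result {m : ℕ} {ι : Type} [Fintype ι] (M : ι → Matrix (Fin (m+1)) (Fin (m+1)) ℤ)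
    (hnn : ∀ i a b, 0 ≤ M i a b) (hM : ∀ i, PisotMat (M i)) (lam : ι → ℝ) (hlam : ∀ i, 1 < lam i)
    (u : ι → Fin (m+1) → ℝ) (hu : ∀ i a, ∑ b, (M i a b : ℝ) * u i b = lam i * u i a)
    (husum : ∀ i, ∑ a, u i a = 1) :
    (∃ B₀ : ℝ, ∀ B ≥ B₀,
      (∀ i, ∀ l : List (Fin (m+1) → List (Fin (m+1))), (∀ τ ∈ l, inc τ = M i) →
        compList l ∈ SubSet (u i) (M i ^ l.length) B) ∧
      ∃ K₀ : ℕ, ∀ L : ℕ, K₀ ≤ L → ∀ T : ℕ, ∃ (K A : ℕ) (C c : ℝ), 0 < C ∧ 0 < c ∧
        ∀ i, ∀ n ≥ K, ∀ σ ∈ SubSet (u i) (M i ^ n) B,
        -- the blocks of the images of the letters
        ∀ W : Fin (m+1) → List (List (Fin (m+1))), (∀ a, (W a).flatten = σ a) →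
        (∀ a, ∀ w ∈ W a, K₀ ≤ w.length ∧ w.length ≤ L) →
        -- every set of `A` blocks suffices
        (∀ N : Finset (Idx W), A ≤ N.card → ∃ x ∈ outcomes W, (∀ j, j ∉ N → x j = blk W j) ∧
          Absorbs M u B T K (glue W x)) ∧
        -- the disturbed blocks and the exceptional blocks
        ∀ N Z : Finset (Idx W), (Z.card : ℝ) ≤ c * N.card →
        -- the noise
        ∀ κ ε : ℝ, 0 ≤ κ → κ ≤ 1 → 0 ≤ ε → ε ≤ 1 →
        ∀ μ : (Idx W → List (Fin (m+1))) → ℝ, IsNoiseOn W N Z κ ε μ →
          prob W μ (fun S => ¬ Absorbs M u B T K S) ≤ C * Real.exp (-(c * κ * ε * N.card))) ∧
    -- independent noise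
    (∀ (W : Fin (m+1) → List (List (Fin (m+1)))) (N Z : Finset (Idx W)) (κ ε : ℝ)
      (p : Idx W → List (Fin (m+1)) → ℝ), (∀ i, ∀ w ∈ rearr W i, 0 ≤ p i w) →
      (∀ i, ∑ w ∈ rearr W i, p i w = 1) → (∀ i, i ∉ Z → κ ≤ p i (blk W i)) →
      (∀ i, i ∈ N → ∀ w ∈ rearr W i, ε ≤ p i w) →
      IsNoiseOn W N Z κ ε (fun x => ∏ i, p i (x i))) ∧
    -- lazy shuffling of the blocks in `N`
    ∀ (W : Fin (m+1) → List (List (Fin (m+1)))) (L : ℕ) (N : Finset (Idx W)) (δ : ℝ),
      (∀ a, ∀ w ∈ W a, w.length ≤ L) → 0 ≤ δ → δ ≤ 1 →
      IsNoiseOn W N ∅ (1 - δ) (δ / L.factorial) (lazyOn W N δ) :=
  ⟨main_all M hnn hM lam hlam u hu husum,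
    fun _ _ _ _ _ _ h0 h1 h2 h3 => product_noise_on h0 h1 h2 h3,
    fun _ _ N _ hL h0 h1 => lazy_noise_on hL N h0 h1⟩

end Pool.Agent.Results.MP_e732b0_an.SmoothedAnalysis
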